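import Mathlib
import Pool.Agent.N754.GF.Dom
import Pool.Agent.N754.LG.Use

/-!
MP_70ba79_ag, Q1: the Lang–Vojta conjecture for maps of affine curves to affine varieties with a
dominant morphism to a torus of the same dimension.
-/

set_option autoImplicit false
set_option linter.overlappingInstances false

namespace Pool.Agent.Results.MP_70ba79_ag.DominantToTorus

open MvPolynomial FF Pool.Agent.W603.LV Pool.Agent.W602.GT

variable {k : Type} [Field k] {n : ℕ}

/-- The points of the closed subset `V(I)` of affine space over `k`. -/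
def Pts (I : Ideal (MvPolynomial (Fin n) k)) : Set (Fin n → k) :=
  {x | ∀ Q ∈ I, eval x Q = 0}

/-- The closed subset `V(p)` of affine space is an irreducible variety of dimension `w`, of
logarithmic general type. Here `K` is its function field, `y` its generic point, and the places of
`K` with a pole of some coordinate are those without centre on `V(p)`. -/
def OfLogGeneralType (p : Ideal (MvPolynomial (Fin n) k)) (w : ℕ) : Prop :=
  ∃ (K : Type) (_ : Field K) (_ : Algebra k K) (y : Fin n → K),
    (∀ Q, aeval y Q = 0 ↔ Q ∈ p) ∧ IntermediateField.adjoin k (Set.range y) = ⊤ ∧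
    LogGeneralType k K w fun P => ∃ j, P.ord (y j) < 0

/-- There is a dominant morphism from `V(p)` to the torus of dimension `w`: there are regular
functions `g₁, …, g_w` on `V(p)` which have no zeros and are algebraically independent. -/
def DominatesTorus (p : Ideal (MvPolynomial (Fin n) k)) (w : ℕ) : Prop :=
  ∃ g : Fin w → MvPolynomial (Fin n) k, (∀ z ∈ Pts p, ∀ i, eval z (g i) ≠ 0) ∧
    ∀ Q : MvPolynomial (Fin w) k, bind₁ g Q ∈ p → Q = 0

/-- The morphisms to `V(I)` from the smooth affine curve `C` whose function field is `K` and whose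
places at infinity are those in `S`. -/
def Maps (I : Ideal (MvPolynomial (Fin n) k)) {K : Type} [Field K] [Algebra k K]
    (S : Finset (Place k K)) : Set (Fin n → K) :=
  {f | (∀ j, ∀ P ∉ S, 0 ≤ P.ord (f j)) ∧ ∀ Q ∈ I, aeval f Q = 0}

/-- The morphism `f` is not constant. -/
def Nonconst (k : Type) [Field k] {K : Type} [Field K] [Algebra k K] (f : Fin n → K) : Prop :=
  ∃ j, ∀ c : k, f j ≠ algebraMap k K c

/-- Let `V = V(p)` be an irreducible affine variety, of logarithmic general type and of dimension
`w`, over the algebraically closed field `k` of characteristic zero, and suppose that there is a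
dominant morphism from `V` to the torus of dimension `w`. Then there are a proper closed subset
`Z = V(J) ∩ V` of `V` and a constant `A` such that `deg f ≤ A χ(C)` for all nonconstant morphisms
`f` from smooth affine curves `C` to `V` with image not contained in `Z`, where
`χ(C) = 2 g - 2 + s`. -/
theorem result [IsAlgClosed k] [CharZero k] (p : Ideal (MvPolynomial (Fin n) k)) (w : ℕ)
    (hL : OfLogGeneralType p w) (hT : DominatesTorus p w) :
    ∃ J : Ideal (MvPolynomial (Fin n) k), ¬ J ≤ p ∧ ∃ A : ℕ,
      ∀ (K : Type) [Field K] [Algebra k K] [IsFF k K] (S : Finset (Place k K)),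
        ∀ f ∈ Maps p S, f ∉ Maps J S → Nonconst k f → mapDeg k f ≤ A * euler S := by
  classical
  obtain ⟨K, _, _, y, hy, hgen, hL⟩ := hL
  obtain ⟨g, hg, hind⟩ := hT
  obtain ⟨H, hH, A, hA⟩ := Pool.Agent.N754.GF.bound_dom y hy hgen hL g
    (fun z hz i => hg z hz i) hind
  refine ⟨Ideal.span {H}, fun h => hH (h (Ideal.mem_span_singleton_self _)), A, ?_⟩
  have hspan : ∀ (L : Type) [Field L] [Algebra k L]
      (x : Fin n → L), (∀ Q ∈ Ideal.span {H}, aeval x Q = 0) ↔ aeval x H = 0 := by
    intro L _ _ x
    constructor
    · intro h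
      exact h _ (Ideal.mem_span_singleton_self _)
    · intro h Q hQ
      obtain ⟨R, rfl⟩ := Ideal.mem_span_singleton'.1 hQ
      rw [map_mul, h, mul_zero]
  have hlin := Pool.Agent.N754.LG.linear_of_max (k := k) Pool.Agent.N754.LG.gz p
    (Ideal.span {H}) A (fun L _ _ _ S f hf hfp hfJ => by
      refine hA L S f hf hfp fun h0 => ?_
      obtain ⟨Q, hQ, hfQ⟩ := hfJ
      exact hfQ ((hspan L f).2 h0 Q hQ))
  intro L _ _ _ S f hf hfJ hne
  refine hlin L S f hf.1 hf.2 ?_ hne
  by_contra hcon
  push Not at hcon
  exact hfJ ⟨hf.1, hcon⟩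

end Pool.Agent.Results.MP_70ba79_ag.DominantToTorus
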