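import Mathlib
import Pool.Agent.N754.FV.Gm
import Pool.Agent.N717.FV.WR
import Pool.Agent.N342.FV.EMB
import Pool.Agent.N624.FV.SPE
import Pool.Agent.N832.FV.SPL
import Pool.Agent.N87.FV.GZ

/-!
MP_70ba79_ag, Q1: the Lang–Vojta conjecture for maps of affine curves to affine varieties which are
linear over a torus.
-/

set_option autoImplicit false
set_option linter.overlappingInstances false

namespace Pool.Agent.Results.MP_70ba79_ag.LinearOverTorus

open MvPolynomial FF Pool.Agent.W603.LV Pool.Agent.H159R3.Exp Pool.Agent.W602.GT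

variable {k : Type} [Field k] {n : ℕ}

/-- The points of the closed subset `V(I)` of affine space over `k`. -/
def Pts (I : Ideal (MvPolynomial (Fin n) k)) : Set (Fin n → k) :=
  {x | ∀ Q ∈ I, eval x Q = 0}

/-- The morphisms to `V(I)` from the affine curve `C` whose function field is `K` and whose places
at infinity are those in `S`. -/
def Maps (I : Ideal (MvPolynomial (Fin n) k)) {K : Type} [Field K] [Algebra k K]
    (S : Finset (Place k K)) : Set (Fin n → K) :=
  {f | (∀ j, ∀ P ∉ S, 0 ≤ P.ord (f j)) ∧ ∀ Q ∈ I, aeval f Q = 0}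

/-- The morphism `f` is not constant. -/
def Nonconst (k : Type) [Field k] {K : Type} [Field K] [Algebra k K] (f : Fin n → K) : Prop :=
  ∃ j, ∀ c : k, f j ≠ algebraMap k K c

/-- The degree of a nonconstant morphism from an affine curve to `V(I)` whose image is not contained
in `V(J)` is at most a constant times the Euler characteristic `2 g - 2 + s` of the curve. -/
def LinearBound (I J : Ideal (MvPolynomial (Fin n) k)) : Prop :=
  ∃ A : ℕ, ∀ (K : Type) [Field K] [Algebra k K] [IsFF k K] (S : Finset (Place k K)),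
    ∀ f ∈ Maps I S, f ∉ Maps J S → Nonconst k f → mapDeg k f ≤ A * euler S

/-- The degree of a nonconstant morphism from an affine curve to `V(I)` whose image is not contained
in `V(J)` is bounded by a function of the Euler characteristic of the curve. -/
def BoundByEuler (I J : Ideal (MvPolynomial (Fin n) k)) : Prop :=
  ∃ β : ℤ → ℤ, ∀ (K : Type) [Field K] [Algebra k K] [IsFF k K] (S : Finset (Place k K)),
    ∀ f ∈ Maps I S, f ∉ Maps J S → Nonconst k f → mapDeg k f ≤ β (euler S)

/-- For every affine curve, the degrees of the morphisms from it to `V(I)` whose image is not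
contained in `V(J)` are bounded. -/
def BoundForEach (I J : Ideal (MvPolynomial (Fin n) k)) : Prop :=
  ∀ (K : Type) [Field K] [Algebra k K] [IsFF k K] (S : Finset (Place k K)),
    ∃ B : ℤ, ∀ f ∈ Maps I S, f ∉ Maps J S → mapDeg k f ≤ B

/-- The nonconstant maps `t ↦ v t`, `t ≠ 0`, to `V(I)` with Laurent coordinates. -/
def Laurents (I : Ideal (MvPolynomial (Fin n) k)) : Set (k → Fin n → k) :=
  {v | (∀ j, Laur fun t => v t j) ∧ (∀ t, t ≠ 0 → v t ∈ Pts I) ∧
    ∃ s t, s ≠ 0 ∧ t ≠ 0 ∧ v s ≠ v t}

/-- The ideal is generated by polynomials of degree at most one in the variables with index outside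
`U`. -/
def LinearOff (I : Ideal (MvPolynomial (Fin n) k)) (U : Finset (Fin n)) : Prop :=
  ∃ s : Set (MvPolynomial (Fin n) k), I = Ideal.span s ∧
    ∀ Q ∈ s, ∀ m ∈ Q.support, ∑ j ∈ Uᶜ, m j ≤ 1

/-- Every point `z` of `V(I)` outside `V(J)` which has the same coordinates with index in `U` as
another point of `V(I)` is the value at `1` of a nonconstant map to `V(I)` with Laurent
coordinates. -/
def FibresCovered (I J : Ideal (MvPolynomial (Fin n) k)) (U : Finset (Fin n)) : Prop :=
  ∀ z ∈ Pts I, z ∉ Pts J → ∀ z' ∈ Pts I, (∀ i ∈ U, z' i = z i) → z' ≠ z →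
    ∃ v ∈ Laurents I, v 1 = z

/-- The closed subvariety `V(p)` of affine space is of logarithmic general type. Here `K` is its
function field, `y` its generic point, and the places of `K` with a pole of some coordinate are
those without centre on `V(p)`. -/
def OfLogGeneralType (p : Ideal (MvPolynomial (Fin n) k)) : Prop :=
  ∃ (K : Type) (_ : Field K) (_ : Algebra k K) (y : Fin n → K) (w : ℕ),
    (∀ Q, aeval y Q = 0 ↔ Q ∈ p) ∧ IntermediateField.adjoin k (Set.range y) = ⊤ ∧
    LogGeneralType k K w fun P => ∃ j, P.ord (y j) < 0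

theorem pts_iff (I : Ideal (MvPolynomial (Fin n) k)) (x : Fin n → k) :
    x ∈ Pts I ↔ ∀ Q ∈ I, aeval x Q = 0 := by
  unfold Pts
  simp only [Set.mem_setOf_eq, Pool.Agent.N754.LT.ae_eval]

/-- Let `V = V(I)` be a closed subset of affine space over the algebraically closed field `k` of
characteristic zero, and `U` a set of coordinates without zeros on `V`.

* Suppose that `V` is linear over the torus with coordinates in `U`: the ideal `I` is generated by
  polynomials of degree at most one in the other coordinates. Let `V₀ = V(p)` be an irreducible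
  component of `V` which is of logarithmic general type. Then there is a proper closed subset of
  `V₀` such that `deg f ≤ A χ(C)` for all nonconstant morphisms `f` from affine curves `C` to `V₀`
  whose image is not contained in it.
* Let `V' = V(J)` be any closed subset, and suppose that `V` is linear over the torus or, more
  generally, that the points of `V` outside `V'` which are not alone in their fibres over the torus
  are on nonconstant curves in `V` with Laurent coordinates. Then the following are equivalent: such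
  a linear bound holds for the morphisms from affine curves to `V` with image not contained in `V'`;
  the degree is bounded by a function of `χ(C)`; for every single curve the degree is bounded; the
  nonconstant morphisms from `𝔾ₘ` to `V` have image contained in `V'`. -/
theorem result [IsAlgClosed k] [CharZero k] (I : Ideal (MvPolynomial (Fin n) k))
    (U : Finset (Fin n)) (hU : ∀ z ∈ Pts I, ∀ i ∈ U, z i ≠ 0) :
    (LinearOff I U → ∀ p ∈ I.minimalPrimes, OfLogGeneralType p →
      ∃ J : Ideal (MvPolynomial (Fin n) k), ¬ J ≤ p ∧ LinearBound p J) ∧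
    ∀ J : Ideal (MvPolynomial (Fin n) k), LinearOff I U ∨ FibresCovered I J U →
      List.TFAE [LinearBound I J, BoundByEuler I J, BoundForEach I J,
        ∀ v ∈ Laurents I, ∀ t, t ≠ 0 → v t ∈ Pts J] := by
  classical
  have hWR : Pool.Agent.N754.FV.WR := Pool.Agent.N717.FV.wr
  have hEMB : Pool.Agent.N754.FV.EMB := Pool.Agent.N342.FV.emb
  have hGZ : Pool.Agent.N754.FV.GZ := Pool.Agent.N87.FV.gz
  have hspan : ∀ (s : Set (MvPolynomial (Fin n) k)) (L : Type) [Field L] [Algebra k L]
      (x : Fin n → L), (∀ Q ∈ s, aeval x Q = 0) → ∀ Q ∈ Ideal.span s, aeval x Q = 0 := by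
    intro s L _ _ x h Q hQ
    have h1 : Ideal.span s ≤ RingHom.ker (aeval (R := k) x) := by
      rw [Ideal.span_le]
      exact h
    exact h1 hQ
  -- the linear bound from the bound with the maximum
  have hlb : ∀ (I' J : Ideal (MvPolynomial (Fin n) k)) (A : ℕ),
      (∀ (K : Type) [Field K] [Algebra k K] [IsFF k K] (S : Finset (Place k K)),
        ∀ f ∈ Maps I' S, (∃ Q ∈ J, aeval f Q ≠ 0) → mapDeg k f < A * max (euler S) 1) →
      LinearBound I' J := by
    intro I' J A h
    refine ⟨A, ?_⟩
    intro K _ _ _ S f hf hfJ hne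
    have hcK : CharZero K := charZero_of_injective_algebraMap (algebraMap k K).injective
    obtain ⟨Q, hQ, hfQ⟩ : ∃ Q ∈ J, aeval f Q ≠ 0 := by
      by_contra hcon
      push Not at hcon
      exact hfJ ⟨hf.1, hcon⟩
    rcases le_or_gt 1 (euler S) with hS | hS
    · have h1 := h K S f hf ⟨Q, hQ, hfQ⟩
      rw [max_eq_left hS] at h1
      exact h1.le
    · exfalso
      obtain ⟨φ, h1, h2⟩ := Pool.Agent.N754.FV.exists_large (k := k) hGZ S (by omega) f hf.1 hne A
      have hφ : ∀ R : MvPolynomial (Fin n) k, aeval (fun j => φ (f j)) R = φ (aeval f R) := by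
        intro R
        have h4 : φ.comp (aeval f) = aeval (R := k) fun i => φ (f i) := by
          apply MvPolynomial.algHom_ext
          intro i
          rw [AlgHom.comp_apply, aeval_X, aeval_X]
        rw [← h4]
        rfl
      have h3 := h K S (fun j => φ (f j)) ⟨h1, fun R hR => by rw [hφ, hf.2 R hR, map_zero]⟩
        ⟨Q, hQ, by rw [hφ]; exact (map_ne_zero_iff φ φ.injective).2 hfQ⟩
      rw [max_eq_right hS.le, mul_one] at h3
      omega
  constructor
  · rintro ⟨s, hIs, hlin⟩ p hp hL
    let E : s → MvPolynomial (Fin n) k := fun l => l.1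
    have hIE : I = Ideal.span (Set.range E) := by
      rw [hIs]
      congr 1
      exact Subtype.range_coe.symm
    obtain ⟨H, hH, A, hA⟩ := Pool.Agent.N754.FV.boundC_of_logGT (k := k) hWR hEMB U E
      (fun z hz i hi => hU z (by
        rw [pts_iff]
        intro Q hQ
        rw [hIE] at hQ
        refine hspan _ k z ?_ Q hQ
        rintro _ ⟨l, rfl⟩
        exact hz l) i hi)
      (fun l => hlin _ l.2) p (by rw [← hIE]; exact hp) hL
    refine ⟨Ideal.span {H}, fun h => hH (h (Ideal.mem_span_singleton_self H)), hlb _ _ A ?_⟩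
    intro K _ _ _ S f hf hfJ
    refine hA K S f hf.1 hf.2 fun h0 => ?_
    obtain ⟨Q, hQ, hfQ⟩ := hfJ
    refine hfQ (hspan {H} K f ?_ Q hQ)
    intro Q' hQ'
    rw [Set.mem_singleton_iff.1 hQ']
    exact h0
  · intro J hfib
    obtain ⟨s, hIs, hlin⟩ : ∃ s : Set (MvPolynomial (Fin n) k), I = Ideal.span s ∧
        (LinearOff I U → ∀ Q ∈ s, ∀ m ∈ Q.support, ∑ j ∈ Uᶜ, m j ≤ 1) := by
      by_cases h : LinearOff I U
      · obtain ⟨s, h1, h2⟩ := h
        exact ⟨s, h1, fun _ => h2⟩
      · exact ⟨I, (Ideal.span_eq I).symm, fun h' => absurd h' h⟩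
    obtain ⟨t, hts, hst⟩ := (Submodule.fg_span_iff_fg_span_finset_subset _).1
      (IsNoetherian.noetherian (Ideal.span s))
    have hst' : Ideal.span s = Ideal.span (t : Set (MvPolynomial (Fin n) k)) := hst
    let E : t → MvPolynomial (Fin n) k := fun l => l.1
    let G : J → MvPolynomial (Fin n) k := fun l => l.1
    have hIE : I = Ideal.span (Set.range E) := by
      have hrange : Set.range E = (t : Set (MvPolynomial (Fin n) k)) := by
        ext Q
        exact ⟨fun ⟨l, hl⟩ => hl ▸ l.2, fun h => ⟨⟨Q, h⟩, rfl⟩⟩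
      rw [hIs, hst', hrange]
    have hI : ∀ (L : Type) [Field L] [Algebra k L] (x : Fin n → L),
        (∀ Q ∈ I, aeval x Q = 0) ↔ ∀ l, aeval x (E l) = 0 := by
      intro L _ _ x
      constructor
      · intro h l
        apply h
        rw [hIE]
        exact Ideal.subset_span ⟨l, rfl⟩
      · intro h Q hQ
        rw [hIE] at hQ
        refine hspan _ L x ?_ Q hQ
        rintro _ ⟨l, rfl⟩
        exact h l
    have hJ : ∀ (L : Type) [Field L] [Algebra k L] (x : Fin n → L),
        (∀ Q ∈ J, aeval x Q = 0) ↔ ∀ l, aeval x (G l) = 0 := fun L _ _ x =>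
      ⟨fun h l => h l.1 l.2, fun h Q hQ => h ⟨Q, hQ⟩⟩
    have hLI : Pool.Agent.N754.FV.LaurIn k E G ↔ ∀ v ∈ Laurents I, ∀ t, t ≠ 0 → v t ∈ Pts J := by
      constructor
      · rintro h v ⟨hv1, hv2, hv3⟩ t ht
        rw [pts_iff, hJ]
        exact fun l => h v hv1 (fun l s hs => (hI k _).1 ((pts_iff I _).1 (hv2 s hs)) l) hv3 l t ht
      · intro h v hv1 hv2 hv3 l s hs
        exact (hJ k _).1 ((pts_iff J _).1 (h v ⟨hv1, fun t ht => (pts_iff I _).2
          ((hI k _).2 fun l => hv2 l t ht), hv3⟩ s hs)) l
    have hcov : Pool.Agent.N754.FV.Cov k E G U := by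
      rcases hfib with h | h
      · exact Pool.Agent.N754.FV.cov_of_lin k E G U fun l => hlin h _ (hts l.2)
      · rintro z z' hz ⟨l0, hl0⟩ hz' hzz' hne
        obtain ⟨v, ⟨hv1, hv2, s, t, hs, ht, hst⟩, hv4⟩ := h z
          ((pts_iff I z).2 ((hI k z).2 hz))
          (fun hzJ => hl0 ((hJ k z).1 ((pts_iff J z).1 hzJ) l0)) z'
          ((pts_iff I z').2 ((hI k z').2 hz')) hzz' hne
        refine ⟨v, hv1, fun l s hs => (hI k _).1 ((pts_iff I _).1 (hv2 s hs)) l, hv4, ?_⟩
        by_contra hcon
        push Not at hcon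
        exact hst (by rw [hcon s hs, hcon t ht])
    tfae_have 4 → 1 := by
      intro h
      obtain ⟨A, hA⟩ := Pool.Agent.N754.FV.boundC_of_laurIn (k := k) hWR hEMB
        Pool.Agent.N624.FV.sp2 (Pool.Agent.N832.FV.spl Pool.Agent.N624.FV.spe) U E G
        (fun z hz i hi => hU z ((pts_iff I z).2 ((hI k z).2 hz)) i hi) hcov (hLI.2 h)
      refine hlb I J A ?_
      intro K _ _ _ S f hf ⟨Q, hQ, hfQ⟩
      exact hA K S f hf.1 ((hI K f).1 hf.2) ⟨⟨Q, hQ⟩, hfQ⟩
    tfae_have 1 → 2 := by
      rintro ⟨A, h⟩
      exact ⟨fun m => A * m, fun K _ _ _ S f h1 h2 h3 => h K S f h1 h2 h3⟩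
    tfae_have 2 → 3 := by
      rintro ⟨β, h⟩ K _ _ _ S
      refine ⟨max (β (euler S)) 0, fun f h1 h2 => ?_⟩
      by_cases h3 : Nonconst k f
      · exact (h K S f h1 h2 h3).trans (le_max_left _ _)
      · unfold Nonconst at h3
        push Not at h3
        rw [Pool.Agent.N754.FV.mapDeg_const f h3]
        exact le_max_right _ _
    tfae_have 3 → 4 := by
      intro h
      rw [← hLI]
      refine Pool.Agent.N754.FV.laurIn_of_gm (k := k) Pool.Agent.N87.FV.rc E G ?_
      intro S _
      have hFF : IsFF k (RatFunc k) := Pool.Agent.TH143.GT.isFF_ratFunc k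
      obtain ⟨B, hB⟩ := h (RatFunc k) S
      refine ⟨B, fun f h1 h2 ⟨l, h3⟩ _ => hB f ⟨h1, (hI _ f).2 h2⟩ fun h4 => h3 (h4.2 _ l.2)⟩
    tfae_finish

end Pool.Agent.Results.MP_70ba79_ag.LinearOverTorus
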