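import Pool.Agent.N126.RC.FinalW

/-!
MP_70ba79_ag, Q1: the degrees of the maps from affine curves to all finite coverings of arbitrary
varieties, ramified over generic hypersurface sections, without some of these sections.

Let `K` be an algebraically closed field of characteristic `0`, and let `k` be a field contained in
`K`, with algebraic closure `k'` in `K`. Let `V` be a closed subset of the projective `n`-space over
`k'`, of dimension at most `m`, and let `F_a`, for `a` in a finite set `A`, be generic forms of
degrees `d_a` (`Generic`: the ratios of their coefficients are algebraically independent over `k`).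

Let `X` be a closed subset of the weighted projective space over `K` with the coordinates
`x_0, …, x_n` of weight `1` and `u_w` of weight `e_w`, `w ∈ W`, with equations `G_i = 0`, such that

* `(x, u) ↦ x` is a finite morphism on `X` (`FiniteOver`), with image in `V` and in the hypersurfaces
  `F_a = 0`, `a ∈ C` (`Over`); `C` is a subset of `A`, for example empty;
* for the `a` not in `C` with `q_a ≥ 1`, this morphism is ramified of order at least `q_a` over
  `F_a = 0` (`RamifiedOver`: locally on `X`, the function `F_a` is in the `q_a`-th power of an ideal
  whose set of zeros contains `{F_a = 0}`; if `X` is smooth, then this means that the inverse image of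
  the divisor `F_a = 0` has multiplicity at least `q_a` at each of its components).

Each projective variety with a finite morphism to `V` can be given in this way. Let `U` be the part
of `X` given by `F_b ≠ 0` for the `b` not in `C` with `q_b = 0`; if there is at least one such `b` with
`d_b ≥ 1`, then `U` is affine. Let `T` be the sum of the numbers `d_a + 1`, `a ∈ C`, and
`d_a (1 - 1 / q_a)`, `a ∉ C`, where `1 / 0 = 0`. Then

`(T - 2 m) deg f ≤ 2 g - 2 + s`

for all nonconstant morphisms `f` from a smooth projective curve of genus `g` without `s` points to
`U` (`AffineCurveBound`; the degree is the one of the inverse image of the hyperplane class of the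
projective `n`-space, whose inverse image on `X` is ample). So, if `T > 2 m`, then the degree bound in
the question holds for `U`, with an empty exceptional set and a linear function `β`. (In this case,
all closed subvarieties of `U` of positive dimension are of log general type, see
`MP_8d8750_ag.RamifiedLogCovers`.)
-/

set_option autoImplicit false

namespace Pool.Agent.Results.MP_70ba79_ag.RamifiedCoverDegrees

open MvPolynomial Pool.Agent.N126.RC Pool.Agent.TH145.MG

theorem result {k K : Type} [Field k] [Field K] [IsAlgClosed K] [CharZero K] [Algebra k K]
    {n m : ℕ}
    -- a closed subset of projective space, of dimension at most `m`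
    (V : Set (MvPolynomial (Fin (n + 1)) (algebraicClosure k K)))
    (hVh : ∀ f ∈ V, ∃ e, f.IsHomogeneous e) (hV : DimLE (algebraicClosure k K) V m)
    -- generic forms
    {A : Type} [Fintype A] [DecidableEq A] (d : A → ℕ) (F : A → MvPolynomial (Fin (n + 1)) K)
    (hF : Generic k d F)
    -- the projective variety `X = {G = 0}`, finite over `V ∩ ⋂ {F a = 0}`, `a ∈ C`, and ramified
    (C : Finset A) (q : A → ℕ)
    {W ι : Type} [Finite W] (e : W → ℕ) (G : ι → MvPolynomial (Fin (n + 1) ⊕ W) K)
    (hG : ∀ i, ∃ c, (G i).IsWeightedHomogeneous (wts e) c) (hfin : FiniteOver G)
    (hov : Over V F C G) (hram : ∀ a, a ∉ C → q a ≠ 0 → RamifiedOver G (F a) (q a)) :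
    AffineCurveBound G F d {b | b ∉ C ∧ q b = 0}
      (∑ a ∈ C, ((d a : ℚ) + 1) + ∑ a ∈ Cᶜ, (d a : ℚ) * (1 - 1 / q a) - 2 * m) :=
  curve_main V hVh hV F hF C e G hG hfin hov hram

end Pool.Agent.Results.MP_70ba79_ag.RamifiedCoverDegrees
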