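import Pool.Agent.N254.SQ.Fin3
import Pool.Agent.N254.SQ.StmB
import Pool.Agent.N254.SQ.ClsA
import Pool.Agent.N254.SQ.AlgS
import Pool.Agent.N254.SQ.Hineq
import Pool.Agent.N254.SQ.Hblk
import Pool.Agent.N254.SQ.Hform
import Pool.Agent.N254.SQ.GeoC
import Pool.Agent.N254.SQ.Cent
import Pool.Agent.N254.SQ.Qspec
import Pool.Agent.N254.SQ.Qdeg
import Pool.Agent.N254.SQ.Cls
import Pool.Agent.N254.SQ.Qimp
import Pool.Agent.N254.SQ.Qforw

/-!
# Degrees of affine curves in affine varieties of log general type: smooth hypersurfaces suffice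

Over `k = ℂ`. Let `U = V(S) ∖ {H = 0}` be any affine variety in `P^n`, `n ≥ 1` (any dimension and any
singularities; `H` a form of positive degree, `S` a set of forms of degree at most `d`, `d ≥ 3`), and
`v : P^n → P^N` the Veronese embedding of degree `d`. For all `D ≥ D₁(N)` there are quadratic forms `Q_t`,
`t < N (2 N + 1)`, depending on `S` only, and a form `H'`, such that

`Y : ∑ t, Q_t(y) (y_0 + t y_1 + ⋯ + t^N y_N)^D = 0`

is a smooth hypersurface, `v` embeds `U` as a closed subvariety of the smooth affine variety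
`W = Y ∖ {H' = 0}`, all closed subvarieties of `W` of positive dimension not of log general type are in
`v(U)`, and all morphisms from curves of genus `g` (without any finite set of points) to `W` are in `v(U)`
or have degree at most `max (2 g - 2, 0)`.

Consequently Q1 for all irreducible affine varieties (singular ones included) is equivalent to the
following statement on the smooth affine varieties `W = Y ∖ {H = 0}`, where `Y` is a smooth hypersurface
of this form with `D` in any given infinite set of exponents and `H` is any form of positive degree: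
no irreducible component of positive dimension of the smallest closed subset of `W` outside of which the degrees of
the curves are bounded in terms of `2 g - 2 + s` is of log general type.

(Morphisms which are birational onto their image suffice by the formula of Riemann and Hurwitz.)
-/

set_option autoImplicit false

namespace Pool.Agent.Results.MP_70ba79_ag.SmoothHypersurfacesSuffice

open MvPolynomial FF
open Pool.Agent.W602.GT (SubVar GeneralType)
open Pool.Agent.W603.LV (canDeg)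
open Pool.Agent.W603.PV (pht)
open Pool.Agent.N254.SQ (IsForm Eqs Component LogGeneral OnSpecialQ OnDegreesQ
  SmoothForm powerForm Monomials veronese)

/-- forms of positive degree -/
def PosForm {n : ℕ} (H : MvPolynomial (Fin (n + 1)) ℂ) : Prop := ∃ e, 1 ≤ e ∧ H.IsHomogeneous e

/-- Q1 for all irreducible affine varieties of positive dimension, smooth or not: `V ∖ {H = 0}`, where
`V` is the closed subset of `P^n` with function field `L` and generic point `y`, and `H` is a form of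
positive degree with `H(y) ≠ 0`. -/
def LangVojtaCurves : Prop :=
  ∀ (n : ℕ) (H : MvPolynomial (Fin (n + 1)) ℂ), PosForm H →
    ∀ (L : Type) [Field L] [Algebra ℂ L] (w : ℕ) (y : Fin (n + 1) → L), 1 ≤ w →
      SubVar (fun p : (∅ : Set (MvPolynomial (Fin (n + 1)) ℂ)) => (p : MvPolynomial (Fin (n + 1)) ℂ))
        L w y → aeval y H ≠ 0 → LogGeneral {H} L w y →
        ∃ G : MvPolynomial (Fin (n + 1)) ℂ, IsForm G ∧ aeval y G ≠ 0 ∧ OnDegreesQ (Eqs y) {H} G

/-- no irreducible component of positive dimension of the exceptional set of `V(A) ∖ {H = 0}` for the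
degrees of affine curves is of log general type -/
def NoComponent {N : ℕ} (A H : MvPolynomial (Fin (N + 1)) ℂ) : Prop :=
  ∀ (L : Type) [Field L] [Algebra ℂ L] (w : ℕ) (y : Fin (N + 1) → L), 1 ≤ w →
    SubVar (fun _ : Unit => A) L w y → aeval y H ≠ 0 → LogGeneral {H} L w y →
      ¬ Component (OnDegreesQ {A} {H}) y

section proof

open Pool.Agent.N254.SQ (Mon ver Good GoodAlg GeoCurves powerSum pull eval_pull t_num Gen Lifts Exc
  Cent Cls ForY Qimp_stm Qforw NotIn)

/-- the construction over the complex numbers -/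
theorem cons {D₁ : ℕ → ℕ} (H : GeoCurves D₁) (n d : ℕ) (hn : 1 ≤ n) (hd : 3 ≤ d) :
    ∃ (N : ℕ) (m : Fin (N + 1) → Fin (n + 1) → ℕ),
      Mon n N d m ∧ ∀ D, D₁ N ≤ D →
        ∀ S : Set (MvPolynomial (Fin (n + 1)) ℂ), (∀ p ∈ S, ∃ e ≤ d, p.IsHomogeneous e) →
        ∃ Q : Fin (N * (2 * N + 1)) → MvPolynomial (Fin (N + 1)) ℂ,
          (∀ t, (Q t).IsHomogeneous 2) ∧ SmoothForm (powerForm D Q) ∧
          Good n N d m S (powerForm D Q) ∧ GoodAlg n N m S (powerForm D Q) := by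
  obtain ⟨N, m, hm, hN⟩ := t_num n d hn hd
  refine ⟨N, m, hm, fun D hD S hS => ?_⟩
  obtain ⟨Q, hQ, hsm, hg, hga⟩ := H n d hn hd N m hm hN D hD S hS
  refine ⟨Q, hQ, ?_, hg, hga⟩
  intro y hy
  obtain ⟨j, hj⟩ := hsm ℂ (RingHom.id ℂ) y hy
  rw [map_id] at hj
  exact ⟨j, hj⟩

/-- subvarieties of a hypersurface, with the two index types -/
theorem sub_unit {N : ℕ} {A : MvPolynomial (Fin (N + 1)) ℂ} {L : Type} [Field L] [Algebra ℂ L]
    {w : ℕ} {y : Fin (N + 1) → L} (hy : SubVar (fun _ : Unit => A) L w y) :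
      SubVar (fun p : ({A} : Set _) => (p : MvPolynomial (Fin (N + 1)) ℂ)) L w y := by
  refine ⟨hy.ne, fun p => ?_, hy.gen, hy.dim⟩
  obtain ⟨p, hp⟩ := p
  rw [Set.mem_singleton_iff] at hp
  subst hp
  exact hy.mem ()

/-- one form -/
theorem notIn_iff {n : ℕ} {H : MvPolynomial (Fin (n + 1)) ℂ} {L : Type} [Field L] [Algebra ℂ L]
    {y : Fin (n + 1) → L} : NotIn {H} y ↔ aeval y H ≠ 0 := by
  unfold NotIn
  constructor
  · rintro ⟨F, hF, h⟩
    rw [Set.mem_singleton_iff] at hF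
    rwa [hF] at h
  · intro h
    exact ⟨H, rfl, h⟩

/-- the class of affine varieties -/
theorem cls_pos : Cls (fun n => {T : Set (MvPolynomial (Fin (n + 1)) ℂ) |
    ∃ H, PosForm H ∧ T = {H}}) := by
  have h := Pool.Agent.N254.SQ.cls_affine
  have e : (fun n => {T : Set (MvPolynomial (Fin (n + 1)) ℂ) |
      ∃ (e : ℕ) (H : MvPolynomial (Fin (n + 1)) ℂ), 1 ≤ e ∧ H.IsHomogeneous e ∧ T = {H}}) =
      fun n => {T : Set (MvPolynomial (Fin (n + 1)) ℂ) | ∃ H, PosForm H ∧ T = {H}} := by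
    funext n
    ext T
    constructor
    · rintro ⟨e, H, h1, h2, h3⟩
      exact ⟨H, ⟨e, h1, h2⟩, h3⟩
    · rintro ⟨H, ⟨e, h1, h2⟩, h3⟩
      exact ⟨e, H, h1, h2, h3⟩
  rw [e] at h
  exact h

/-- the theorem, from the leaves -/
theorem assembly (hc : Cent)
    (hspec : Exc (fun _ S T G => OnSpecialQ S T G)) (hdeg : Exc (fun _ S T G => OnDegreesQ S T G))
    (hcls : Cls (fun n => {T : Set (MvPolynomial (Fin (n + 1)) ℂ) | ∃ H, PosForm H ∧ T = {H}}))
    (himp : Qimp_stm) (hforw : Qforw) {D₁ : ℕ → ℕ} (H : GeoCurves D₁) :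
    (∀ n d : ℕ, 1 ≤ n → 3 ≤ d → ∃ (N : ℕ) (m : Fin (N + 1) → Fin (n + 1) → ℕ),
      Monomials n N d m ∧ ∀ D, D₁ N ≤ D →
        ∀ S : Set (MvPolynomial (Fin (n + 1)) ℂ), (∀ p ∈ S, ∃ e ≤ d, p.IsHomogeneous e) →
        ∃ Q : Fin (N * (2 * N + 1)) → MvPolynomial (Fin (N + 1)) ℂ,
          (∀ t, (Q t).IsHomogeneous 2) ∧ SmoothForm (powerForm D Q) ∧
          (∀ x : Fin (n + 1) → ℂ, (∀ p ∈ S, eval x p = 0) →
            eval (veronese m x) (powerForm D Q) = 0) ∧
          (∀ (L : Type) [Field L] [Algebra ℂ L] (w : ℕ) (y : Fin (N + 1) → L), 1 ≤ w →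
            SubVar (fun _ : Unit => powerForm D Q) L w y →
            GeneralType ℂ L w ∨ ∃ (x : Fin (n + 1) → L) (c : L), x ≠ 0 ∧ c ≠ 0 ∧
              (∀ p ∈ S, aeval x p = 0) ∧ y = c • veronese m x) ∧
          (∀ (E : Type) [Field E] [Algebra ℂ E] [IsFF ℂ E] (y : Fin (N + 1) → E), y ≠ 0 →
            aeval y (powerForm D Q) = 0 → pht ℂ y ≤ max (canDeg ℂ E) 0 ∨
              ∃ (x : Fin (n + 1) → E) (c : E), x ≠ 0 ∧ c ≠ 0 ∧ (∀ p ∈ S, aeval x p = 0) ∧
                y = c • veronese m x) ∧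
          ∀ H : MvPolynomial (Fin (n + 1)) ℂ, PosForm H →
            ∃ H' : MvPolynomial (Fin (N + 1)) ℂ, PosForm H' ∧
              (∀ x : Fin (n + 1) → ℂ, eval (veronese m x) H' = 0 ↔ eval x H = 0) ∧
              ∀ G, IsForm G → ∀ G₀, G₀ = aeval
                  (fun a => ∏ j, (X j : MvPolynomial (Fin (n + 1)) ℂ) ^ m a j) G →
                (OnDegreesQ {powerForm D Q} {H'} G ↔ OnDegreesQ S {H} G₀) ∧
                (OnSpecialQ {powerForm D Q} {H'} G ↔ OnSpecialQ S {H} G₀)) ∧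
    ∀ E : Set ℕ, E.Infinite →
      (LangVojtaCurves ↔
        ∀ (N D : ℕ) (Q : Fin (N * (2 * N + 1)) → MvPolynomial (Fin (N + 1)) ℂ), D ∈ E →
          D₁ N ≤ D → (∀ t, (Q t).IsHomogeneous 2) → SmoothForm (powerForm D Q) →
          ∀ H : MvPolynomial (Fin (N + 1)) ℂ, PosForm H → NoComponent (powerForm D Q) H) := by
  refine ⟨?_, ?_⟩
  · intro n d hn hd
    obtain ⟨N, m, hm, H2⟩ := cons H n d hn hd
    refine ⟨N, m, ⟨hm.deg, hm.inj, hm.surj⟩, fun D hD S hS => ?_⟩
    obtain ⟨Q, hQ, hsm, hg, hga⟩ := H2 D hD S hS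
    refine ⟨Q, hQ, hsm, fun x hx => hg.sub ℂ x hx,
      fun L _ _ w y hw hy => hg.special L w y hw (sub_unit hy), hga, ?_⟩
    intro F hF
    obtain ⟨T', ⟨F', hF', rfl⟩, hL⟩ := hcls.lift n N d m hm (by omega) {F} ⟨F, hF, rfl⟩
    have hp : pull m F' = F ^ d := by
      obtain ⟨F₁, hF₁, e, -, -, h⟩ := hL.up F rfl
      rw [Set.mem_singleton_iff] at hF₁
      rwa [hF₁] at h
    refine ⟨F', hF', ?_, ?_⟩
    · intro x
      have h1 : eval (veronese m x) F' = eval x F ^ d := by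
        have h2 := eval_pull (m := m) x F'
        rw [hp, map_pow] at h2
        exact h2.symm
      rw [h1, pow_eq_zero_iff (by omega)]
    · rintro G hG _ rfl
      exact ⟨hdeg.transfer n N d m S _ hg hga {F} {F'} hL G hG,
        hspec.transfer n N d m S _ hg hga {F} {F'} hL G hG⟩
  · intro E hE
    constructor
    · intro hLV N D Q _ _ _ _ F hF L _ _ w y hw hy hne hlog
      refine hforw.imp (fun _ S T G => OnDegreesQ S T G) hdeg N {F} ?_ {powerForm D Q} L w y hw
        ⟨hy.ne, hy.gen, hy.dim⟩ (notIn_iff.2 hne) hlog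
      intro L' _ _ w' y' hw' hy' hne' hlog'
      exact hLV N F hF L' w' y' hw'
        ⟨hy'.ne, fun p => absurd p.2 (Set.notMem_empty _), hy'.gen, hy'.dim⟩
        (notIn_iff.1 hne') hlog'
    · intro h n F hF L _ _ w y hw hy hne hlog
      refine himp hc D₁ H E hE (fun _ S T G => OnDegreesQ S T G) hdeg _ hcls ?_ n {F} ⟨F, hF, rfl⟩
        L w y hw ⟨hy.ne, hy.gen, hy.dim⟩ (notIn_iff.2 hne) hlog
      intro N D Q hDE hD hQ hsm T hT L' _ _ w' y' hw' hy' hne' hlog'
      obtain ⟨F', hF', rfl⟩ := hT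
      exact h N D Q hDE hD hQ hsm F' hF' L' w' y' hw' hy' (notIn_iff.1 hne') hlog'

end proof

theorem result : ∃ D₁ : ℕ → ℕ,
    (∀ n d : ℕ, 1 ≤ n → 3 ≤ d → ∃ (N : ℕ) (m : Fin (N + 1) → Fin (n + 1) → ℕ),
      Monomials n N d m ∧ ∀ D, D₁ N ≤ D →
        ∀ S : Set (MvPolynomial (Fin (n + 1)) ℂ), (∀ p ∈ S, ∃ e ≤ d, p.IsHomogeneous e) →
        ∃ Q : Fin (N * (2 * N + 1)) → MvPolynomial (Fin (N + 1)) ℂ,
          (∀ t, (Q t).IsHomogeneous 2) ∧ SmoothForm (powerForm D Q) ∧
          (∀ x : Fin (n + 1) → ℂ, (∀ p ∈ S, eval x p = 0) →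
            eval (veronese m x) (powerForm D Q) = 0) ∧
          (∀ (L : Type) [Field L] [Algebra ℂ L] (w : ℕ) (y : Fin (N + 1) → L), 1 ≤ w →
            SubVar (fun _ : Unit => powerForm D Q) L w y →
            GeneralType ℂ L w ∨ ∃ (x : Fin (n + 1) → L) (c : L), x ≠ 0 ∧ c ≠ 0 ∧
              (∀ p ∈ S, aeval x p = 0) ∧ y = c • veronese m x) ∧
          (∀ (E : Type) [Field E] [Algebra ℂ E] [IsFF ℂ E] (y : Fin (N + 1) → E), y ≠ 0 →
            aeval y (powerForm D Q) = 0 → pht ℂ y ≤ max (canDeg ℂ E) 0 ∨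
              ∃ (x : Fin (n + 1) → E) (c : E), x ≠ 0 ∧ c ≠ 0 ∧ (∀ p ∈ S, aeval x p = 0) ∧
                y = c • veronese m x) ∧
          ∀ H : MvPolynomial (Fin (n + 1)) ℂ, PosForm H →
            ∃ H' : MvPolynomial (Fin (N + 1)) ℂ, PosForm H' ∧
              (∀ x : Fin (n + 1) → ℂ, eval (veronese m x) H' = 0 ↔ eval x H = 0) ∧
              ∀ G, IsForm G → ∀ G₀, G₀ = aeval
                  (fun a => ∏ j, (X j : MvPolynomial (Fin (n + 1)) ℂ) ^ m a j) G →
                (OnDegreesQ {powerForm D Q} {H'} G ↔ OnDegreesQ S {H} G₀) ∧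
                (OnSpecialQ {powerForm D Q} {H'} G ↔ OnSpecialQ S {H} G₀)) ∧
    ∀ E : Set ℕ, E.Infinite →
      (LangVojtaCurves ↔
        ∀ (N D : ℕ) (Q : Fin (N * (2 * N + 1)) → MvPolynomial (Fin (N + 1)) ℂ), D ∈ E →
          D₁ N ≤ D → (∀ t, (Q t).IsHomogeneous 2) → SmoothForm (powerForm D Q) →
          ∀ H : MvPolynomial (Fin (N + 1)) ℂ, PosForm H → NoComponent (powerForm D Q) H) := by
  obtain ⟨D₁, H⟩ := Pool.Agent.N254.SQ.t_geoc (Pool.Agent.N254.SQ.t_alg
    (Pool.Agent.N254.SQ.t_hblk Pool.Agent.N254.SQ.t_hineq) Pool.Agent.N254.SQ.t_hform)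
  exact ⟨D₁, assembly Pool.Agent.N254.SQ.t_cent
    (Pool.Agent.N254.SQ.t_qspec Pool.Agent.N254.SQ.t_cent)
    (Pool.Agent.N254.SQ.t_qdeg Pool.Agent.N254.SQ.t_cent Pool.Agent.N254.SQ.t_hform)
    cls_pos Pool.Agent.N254.SQ.t_qimp Pool.Agent.N254.SQ.t_qforw H⟩

end Pool.Agent.Results.MP_70ba79_ag.SmoothHypersurfacesSuffice
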